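import Pool.Agent.Y546.WQ.Stm5

/-!
# Project TJ, the statement POL4: from a congruence modulo two to a congruence modulo four
-/

set_option autoImplicit false

namespace Pool.Agent.Y405.WQ

open Polynomial

theorem coeff_neg_X (P : ℤ[X]) (i : ℕ) : (P.comp (-X)).coeff i = P.coeff i * (-1) ^ i := by
  have h : (-X : ℤ[X]) = C (-1) * X := by rw [C_neg, C_1, neg_one_mul]
  rw [h, comp_C_mul_X_coeff]

theorem rev_lt {N i : ℕ} (h : N < i) : revAt N i = i := by
  rw [← revAtFun_eq, revAtFun, if_neg (by omega)]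

/-- `P (-X)` is `P` modulo two -/
theorem neg_mod (P : ℤ[X]) : ∃ Q : ℤ[X], P.comp (-X) = P + 2 * Q := by
  have h : C (2 : ℤ) ∣ P.comp (-X) - P := by
    rw [C_dvd_iff_dvd_coeff]
    intro i
    rw [coeff_sub, coeff_neg_X]
    rcases Nat.even_or_odd i with hi | hi
    · rw [hi.neg_one_pow, mul_one, sub_self]
      exact dvd_zero _
    · rw [hi.neg_one_pow]
      exact ⟨-P.coeff i, by ring⟩
  obtain ⟨Q, hQ⟩ := h
  refine ⟨Q, ?_⟩
  have h2 : (C (2 : ℤ) : ℤ[X]) = 2 := rfl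
  rw [h2] at hQ
  rw [← hQ]
  ring

theorem reflect_neg (m : ℕ) (B : ℤ[X]) (hB : B.natDegree ≤ m) :
    (B.comp (-X)).reflect m = (-1) ^ m * (B.reflect m).comp (-X) := by
  ext i
  have h1 : ((-1 : ℤ[X]) ^ m) = C ((-1) ^ m) := by rw [C_pow, C_neg, C_1]
  rw [coeff_reflect, coeff_neg_X, h1, coeff_C_mul, coeff_neg_X, coeff_reflect]
  rcases le_or_gt i m with hi | hi
  · rw [revAt_le hi]
    have h2 : ((-1 : ℤ)) ^ m = (-1) ^ (m - i) * (-1) ^ i := by
      rw [← pow_add, Nat.sub_add_cancel hi]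
    rw [h2]
    have h3 : ((-1 : ℤ)) ^ i * (-1) ^ i = 1 := by rw [← mul_pow]; norm_num
    linear_combination (-(B.coeff (m - i)) * (-1) ^ (m - i)) * h3
  · rw [rev_lt hi, coeff_eq_zero_of_natDegree_lt (by omega)]
    ring

theorem reflect_sq (m : ℕ) (f : ℤ[X]) (hf : f.natDegree ≤ m) :
    (f.comp (X ^ 2)).reflect (m + m) = (f.reflect m).comp (X ^ 2) := by
  rw [← expand_eq_comp_X_pow, ← expand_eq_comp_X_pow]
  ext i
  rw [coeff_reflect, coeff_expand two_pos, coeff_expand two_pos, coeff_reflect]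
  rcases le_or_gt i (m + m) with hi | hi
  · rw [revAt_le hi]
    by_cases h2 : 2 ∣ i
    · rw [if_pos h2, if_pos (by omega), revAt_le (by omega)]
      congr 1
      omega
    · rw [if_neg h2, if_neg (by omega)]
  · rw [rev_lt hi]
    by_cases h2 : 2 ∣ i
    · rw [if_pos h2, if_pos h2, rev_lt (by omega)]
    · rw [if_neg h2, if_neg h2]

theorem mainPOL4 : Pool.Agent.Y546.WQ.S_POL4 := by
  intro m a b B f hB hf hfB hR
  obtain ⟨R, hR⟩ := hR
  obtain ⟨B', hB'⟩ : ∃ B', B' = B.reflect m := ⟨_, rfl⟩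
  -- the product for the reflected polynomial
  have hdeg : (B.comp (-X)).natDegree ≤ m := by
    rw [natDegree_comp, natDegree_neg, natDegree_X, mul_one]
    exact hB
  have h1 : B' * B'.comp (-X) = (-1) ^ m * (f.reflect m).comp (X ^ 2) := by
    have e1 := reflect_mul B (B.comp (-X)) hB hdeg
    rw [← hfB, reflect_sq m f hf, reflect_neg m B hB, ← hB'] at e1
    rw [e1]
    have e2 : ((-1 : ℤ[X])) ^ m * (-1) ^ m = 1 := by rw [← mul_pow]; norm_num
    linear_combination (-(B' * B'.comp (-X))) * e2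
  rw [← hB'] at hR
  -- the substitution
  have h2 : (-X) ^ b * B.comp (-X) = (-X) ^ a * B'.comp (-X) + 2 * R.comp (-X) := by
    have e1 := congrArg (fun P : ℤ[X] => P.comp (-X)) hR
    simp only [mul_comp, add_comp, X_pow_comp, ofNat_comp] at e1
    exact e1
  obtain ⟨U, hU⟩ := neg_mod B'
  obtain ⟨W, hW⟩ := neg_mod R
  obtain ⟨Z, hZ⟩ := neg_mod (X ^ a * B')
  have hZ' : (-X) ^ a * B'.comp (-X) = X ^ a * B' + 2 * Z := by
    rw [← hZ, mul_comp, X_pow_comp]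
  obtain ⟨g, hg⟩ : ∃ g : ℤ[X], g = (-1) ^ b * (X ^ b * f) -
    (-1) ^ (a + m) * (X ^ a * f.reflect m) := ⟨_, rfl⟩
  have h3 : g.comp (X ^ 2) = 4 * (X ^ a * B' * W + Z * R + R * (X ^ a * B') + R * R.comp (-X)) := by
    have e1 : g.comp (X ^ 2) = (X ^ b * B) * ((-X) ^ b * B.comp (-X)) -
        (X ^ a * B') * ((-X) ^ a * B'.comp (-X)) := by
      rw [hg]
      simp only [sub_comp, mul_comp, pow_comp, neg_comp, one_comp, X_comp]
      rw [hfB]
      have e3 : ((-X : ℤ[X])) ^ b = (-1) ^ b * X ^ b := by rw [neg_pow]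
      have e4 : ((-X : ℤ[X])) ^ a = (-1) ^ a * X ^ a := by rw [neg_pow]
      rw [e3, e4]
      linear_combination (((-1 : ℤ[X])) ^ a * (X ^ 2) ^ a) * h1
    rw [e1, h2, hR, hZ', hW]
    ring
  have h4 : C (4 : ℤ) ∣ g := by
    rw [C_dvd_iff_dvd_coeff]
    intro i
    have e1 := coeff_expand_mul two_pos g i
    rw [expand_eq_comp_X_pow, h3] at e1
    rw [← e1]
    have e2 : (4 : ℤ[X]) = C 4 := rfl
    rw [e2, coeff_C_mul]
    exact dvd_mul_right _ _
  obtain ⟨S, hS⟩ := h4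
  have e2 : (C (4 : ℤ) : ℤ[X]) = 4 := rfl
  rw [hg, e2] at hS
  refine ⟨(-1) ^ b * S, ?_⟩
  have e3 : ((-1 : ℤ[X])) ^ b * (-1) ^ b = 1 := by rw [← mul_pow]; norm_num
  have e4 : ((-1 : ℤ[X])) ^ (a + b + m) = (-1) ^ b * (-1) ^ (a + m) := by
    rw [← pow_add]
    congr 1
    ring
  rw [e4]
  linear_combination ((-1 : ℤ[X])) ^ b * hS - (X ^ b * f) * e3

end Pool.Agent.Y405.WQ
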